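import Pool.Agent.K4H49.IR.Spec

set_option autoImplicit false

open Finset

namespace Pool.Agent.K4H49.IR

theorem clq_count : StClq := by
  classical
  intro V _ G n x
  unfold fdeg
  let f : Finset V → G.Subgraph := fun s => (⊤ : G.Subgraph).induce (s : Set V)
  have hadj : ∀ s a b, (f s).Adj a b ↔ a ∈ s ∧ b ∈ s ∧ G.Adj a b := by
    intro s a b
    show a ∈ (s : Set V) ∧ b ∈ (s : Set V) ∧ (⊤ : G.Subgraph).Adj a b ↔ _
    rw [SimpleGraph.Subgraph.top_adj, Finset.mem_coe, Finset.mem_coe]
  have hverts : ∀ s, (f s).verts = (s : Set V) := fun s => rfl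
  have hf : Function.Injective f := by
    intro s t h
    have h1 : (f s).verts = (f t).verts := by rw [h]
    exact Finset.coe_injective h1
  have himg : {H : G.Subgraph | x ∈ H.verts ∧ Nonempty ((⊤ : SimpleGraph (Fin n)) ≃g H.coe)} =
      f '' {s : Finset V | G.IsNClique n s ∧ x ∈ s} := by
    ext H
    constructor
    · rintro ⟨hx, ⟨e⟩⟩
      have hfull : ∀ a ∈ H.verts, ∀ b ∈ H.verts, a ≠ b → H.Adj a b := by
        intro a ha b hb hab
        have h1 : e.symm ⟨a, ha⟩ ≠ e.symm ⟨b, hb⟩ := fun h =>
          hab (congrArg Subtype.val (e.symm.injective h))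
        have h2 : H.coe.Adj (e (e.symm ⟨a, ha⟩)) (e (e.symm ⟨b, hb⟩)) := e.map_adj_iff.2 h1
        rw [e.apply_symm_apply, e.apply_symm_apply] at h2
        exact h2
      have hcard : H.verts.toFinset.card = n := by
        have h1 := Fintype.card_congr e.toEquiv
        rw [Fintype.card_fin] at h1
        rw [Set.toFinset_card]
        exact h1.symm
      refine ⟨H.verts.toFinset, ⟨⟨?_, hcard⟩, ?_⟩, ?_⟩
      · intro a ha b hb hab
        rw [Set.coe_toFinset] at ha hb
        exact H.adj_sub (hfull a ha b hb hab)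
      · rw [Set.mem_toFinset]
        exact hx
      · apply SimpleGraph.Subgraph.ext
        · rw [hverts, Set.coe_toFinset]
        · funext a b
          apply propext
          rw [hadj, Set.mem_toFinset, Set.mem_toFinset]
          constructor
          · rintro ⟨ha, hb, hab⟩
            exact hfull a ha b hb hab.ne
          · intro h
            exact ⟨H.edge_vert h, H.edge_vert h.symm, H.adj_sub h⟩
    · rintro ⟨s, ⟨hs, hxs⟩, rfl⟩
      refine ⟨hxs, ?_⟩
      have e0 : Fin n ≃ s := (s.equivFinOfCardEq hs.2).symm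
      refine ⟨⟨e0, ?_⟩⟩
      intro i j
      show (f s).Adj (e0 i).1 (e0 j).1 ↔ i ≠ j
      rw [hadj]
      constructor
      · rintro ⟨_, _, h⟩ rfl
        exact h.ne rfl
      · intro hij
        have h1 : (e0 i).1 ≠ (e0 j).1 := fun h => hij (e0.injective (Subtype.ext h))
        exact ⟨(e0 i).2, (e0 j).2, hs.1 (Finset.mem_coe.2 (e0 i).2) (Finset.mem_coe.2 (e0 j).2) h1⟩
  rw [himg, Set.ncard_image_of_injective _ hf]

end Pool.Agent.K4H49.IR
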