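import Pool.Agent.K4H75.OS.Spec

set_option autoImplicit false

namespace Pool.Agent.K4H75.OS

open Finset

namespace EulAux

lemma mem_edges {n : ℕ} {G : SimpleGraph (Fin n)} {e : Finset (Fin n)} :
    e ∈ edges G ↔ e.card = 2 ∧ ∀ a ∈ e, ∀ b ∈ e, a ≠ b → G.Adj a b := by
  classical
  unfold edges
  rw [mem_filter, mem_powersetCard]
  exact ⟨fun h => ⟨h.1.2, h.2⟩, fun h => ⟨⟨subset_univ _, h.1⟩, h.2⟩⟩

/-- vertices ≤ edges + components -/
lemma base {n : ℕ} (G : SimpleGraph (Fin n)) (S : Finset (Fin n)) :
    S.card ≤ ((edges G).filter fun e => e ⊆ S).card + comps G S := by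
  classical
  set H := G.induce (S : Set (Fin n)) with hH
  have : Finite H.ConnectedComponent := Quot.finite _
  let W := ((S : Set (Fin n)) : Type)
  let r : W → W := fun w => (H.connectedComponentMk w).out
  have hr : ∀ w, H.Reachable (r w) w := fun w =>
    SimpleGraph.ConnectedComponent.exact (Quot.out_eq (H.connectedComponentMk w))
  have hpar : ∀ w : W, w ≠ r w → ∃ u : W, H.Adj w u ∧ H.dist u (r w) + 1 = H.dist w (r w) := by
    intro w hw
    obtain ⟨p, hp⟩ := (hr w).symm.exists_walk_length_eq_dist
    generalize r w = z at hw p hp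
    cases p with
    | nil => exact absurd rfl hw
    | cons h q =>
      rename_i u
      refine ⟨u, h, ?_⟩
      have h1 := SimpleGraph.dist_le q
      rw [SimpleGraph.Walk.length_cons] at hp
      have h2 : H.dist w z ≤ H.dist u z + 1 := by
        obtain ⟨q', hq'⟩ := (q.reachable).exists_walk_length_eq_dist
        have := SimpleGraph.dist_le (SimpleGraph.Walk.cons h q')
        rw [SimpleGraph.Walk.length_cons, hq'] at this
        exact this
      omega
  choose! P hP using hpar
  have hE : ∀ w : W, w ≠ r w → ({w.1, (P w).1} : Finset (Fin n)) ∈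
      (edges G).filter fun e => e ⊆ S := by
    intro w hw
    have h1 : G.Adj w.1 (P w).1 := (hP w hw).1
    rw [mem_filter, mem_edges]
    refine ⟨⟨card_pair h1.ne, ?_⟩, ?_⟩
    · intro a ha b hb hab
      rw [mem_insert, mem_singleton] at ha hb
      rcases ha with rfl | rfl <;> rcases hb with rfl | rfl
      · exact absurd rfl hab
      · exact h1
      · exact h1.symm
      · exact absurd rfl hab
    · intro a ha
      rw [mem_insert, mem_singleton] at ha
      rcases ha with rfl | rfl
      · exact w.2
      · exact (P w).2
  let φ : W → H.ConnectedComponent ⊕ {e // e ∈ (edges G).filter fun e => e ⊆ S} := fun w =>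
    if h : w = r w then Sum.inl (H.connectedComponentMk w)
    else Sum.inr ⟨{w.1, (P w).1}, hE w h⟩
  have hφ : Function.Injective φ := by
    intro w w' hww
    simp only [φ] at hww
    by_cases h : w = r w <;> by_cases h' : w' = r w'
    · rw [dif_pos h, dif_pos h'] at hww
      have h1 := Sum.inl.inj hww
      rw [h, h']
      simp only [r]
      rw [h1]
    · rw [dif_pos h, dif_neg h'] at hww
      simp at hww
    · rw [dif_neg h, dif_pos h'] at hww
      simp at hww
    · rw [dif_neg h, dif_neg h'] at hww
      have h1 : ({w.1, (P w).1} : Finset (Fin n)) = {w'.1, (P w').1} :=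
        congrArg Subtype.val (Sum.inr.inj hww)
      have h4 : w.1 ∈ ({w'.1, (P w').1} : Finset (Fin n)) := by
        rw [← h1]; exact mem_insert_self _ _
      have h5 : w'.1 ∈ ({w.1, (P w).1} : Finset (Fin n)) := by
        rw [h1]; exact mem_insert_self _ _
      rw [mem_insert, mem_singleton] at h4 h5
      rcases h4 with h4 | h4
      · exact Subtype.ext h4
      rcases h5 with h5 | h5
      · exact (Subtype.ext h5).symm
      exfalso
      have h2 : w = P w' := Subtype.ext h4
      have h3 : P w = w' := (Subtype.ext h5).symm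
      obtain ⟨a1, a2⟩ := hP w h
      obtain ⟨b1, b2⟩ := hP w' h'
      have hroot : r w = r w' := by
        simp only [r]
        rw [SimpleGraph.ConnectedComponent.sound (show H.Reachable w w' from by
          rw [← h3]; exact a1.reachable)]
      rw [h3, hroot] at a2
      rw [← h2] at b2
      omega
  have h1 := Nat.card_le_card_of_injective φ hφ
  rw [Nat.card_sum] at h1
  have h2 : Nat.card W = S.card := by
    show Nat.card ((S : Set (Fin n)) : Type) = S.card
    rw [Nat.card_coe_set_eq, Set.ncard_coe_finset]
  have h3 : Nat.card {e // e ∈ (edges G).filter fun e => e ⊆ S} =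
      ((edges G).filter fun e => e ⊆ S).card := by
    rw [Nat.card_eq_fintype_card, Fintype.card_coe]
  rw [h2, h3] at h1
  have h4 : comps G S = Nat.card H.ConnectedComponent := rfl
  rw [h4]
  omega

/-- fewer components if everything stays reachable -/
lemma comps_le {n : ℕ} {G G' : SimpleGraph (Fin n)} {S : Finset (Fin n)}
    (h : ∀ x y : ((S : Set (Fin n)) : Type), (G.induce (S : Set (Fin n))).Adj x y →
      (G'.induce (S : Set (Fin n))).Reachable x y) : comps G' S ≤ comps G S := by
  unfold comps
  have : Finite (G.induce (S : Set (Fin n))).ConnectedComponent := Quot.finite _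
  have h1 : ∀ x y : ((S : Set (Fin n)) : Type), (G.induce (S : Set (Fin n))).Reachable x y →
      (G'.induce (S : Set (Fin n))).Reachable x y := by
    rintro x y ⟨p⟩
    induction p with
    | nil => exact SimpleGraph.Reachable.refl _
    | cons h0 q ih => exact (h _ _ h0).trans ih
  refine Nat.card_le_card_of_surjective (fun c => Quot.lift
    (fun v => (G'.induce (S : Set (Fin n))).connectedComponentMk v)
    (fun x y hxy => SimpleGraph.ConnectedComponent.sound (h1 x y hxy)) c) ?_
  intro c
  induction c using SimpleGraph.ConnectedComponent.ind with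
  | _ x => exact ⟨(G.induce (S : Set (Fin n))).connectedComponentMk x, rfl⟩

end EulAux

open EulAux in
theorem eul : StEul := by
  classical
  intro n G S A
  generalize hN : A.card = N
  induction N generalizing G A with
  | zero =>
    intro _ _
    exact base G S
  | succ N ih =>
    intro hA hB
    have hne : A.Nonempty := by
      rw [← card_pos]; omega
    obtain ⟨e, he, h1⟩ := hB A (Subset.refl _) hne
    obtain ⟨f, hf⟩ := card_eq_one.1 h1
    have hfA : f ∈ A ∧ e ⊆ f := by
      have : f ∈ A.filter fun f => e ⊆ f := by rw [hf]; exact mem_singleton_self _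
      exact mem_filter.1 this
    have huniq : ∀ g ∈ A, e ⊆ g → g = f := by
      intro g hg heg
      have : g ∈ A.filter fun f => e ⊆ f := mem_filter.2 ⟨hg, heg⟩
      rw [hf] at this
      exact mem_singleton.1 this
    obtain ⟨he1, he2⟩ := mem_edges.1 he
    obtain ⟨a, b, hab, rfl⟩ := card_eq_two.1 he1
    obtain ⟨hf1, hf2, hf3⟩ := hA f hfA.1
    have haf : a ∈ f := hfA.2 (mem_insert_self _ _)
    have hbf : b ∈ f := hfA.2 (mem_insert_of_mem (mem_singleton_self _))
    obtain ⟨c, hc, hce⟩ : ∃ c ∈ f, c ∉ ({a, b} : Finset (Fin n)) := by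
      by_contra hcon
      push Not at hcon
      have := card_le_card (show f ⊆ {a, b} from hcon)
      omega
    have hca : c ≠ a := fun h => hce (by rw [h]; exact mem_insert_self _ _)
    have hcb : c ≠ b := fun h => hce (by rw [h]; exact mem_insert_of_mem (mem_singleton_self _))
    set G' := G.deleteEdges {s(a, b)} with hG'
    have hadj : ∀ x y, G.Adj x y → ¬ (({x, y} : Finset (Fin n)) = {a, b}) → G'.Adj x y := by
      intro x y hxy hne
      rw [hG', SimpleGraph.deleteEdges_adj]
      refine ⟨hxy, ?_⟩
      rw [Set.mem_singleton_iff, Sym2.eq_iff]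
      rintro (⟨rfl, rfl⟩ | ⟨rfl, rfl⟩)
      · exact hne rfl
      · exact hne (pair_comm _ _)
    have hadj' : ∀ x y, G'.Adj x y → G.Adj x y ∧ ¬ (({x, y} : Finset (Fin n)) = {a, b}) := by
      intro x y hxy
      rw [hG', SimpleGraph.deleteEdges_adj, Set.mem_singleton_iff] at hxy
      refine ⟨hxy.1, fun h => hxy.2 ?_⟩
      have h2 : x ∈ ({a, b} : Finset (Fin n)) := by rw [← h]; exact mem_insert_self _ _
      have h3 : y ∈ ({a, b} : Finset (Fin n)) := by
        rw [← h]; exact mem_insert_of_mem (mem_singleton_self _)
      have h4 := hxy.1.ne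
      rw [mem_insert, mem_singleton] at h2 h3
      rw [Sym2.eq_iff]
      rcases h2 with rfl | rfl <;> rcases h3 with rfl | rfl
      · exact absurd rfl h4
      · exact Or.inl ⟨rfl, rfl⟩
      · exact Or.inr ⟨rfl, rfl⟩
      · exact absurd rfl h4
    have hN' : (A.erase f).card = N := by
      rw [card_erase_of_mem hfA.1, hN]; rfl
    have ihh := ih G' (A.erase f) hN' ?_ ?_
    · have h2 : comps G' S ≤ comps G S := by
        apply comps_le
        intro x y hxy
        have hxy' : G.Adj x.1 y.1 := hxy
        by_cases hp : ({x.1, y.1} : Finset (Fin n)) = {a, b}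
        · -- go round by `c`
          have hxf : x.1 ∈ f := hfA.2 (by rw [← hp]; exact mem_insert_self _ _)
          have hyf : y.1 ∈ f := hfA.2 (by rw [← hp]; exact mem_insert_of_mem (mem_singleton_self _))
          have hcx : c ≠ x.1 := fun h => hce (by rw [← hp, h]; exact mem_insert_self _ _)
          have hcy : c ≠ y.1 := fun h => hce (by
            rw [← hp, h]; exact mem_insert_of_mem (mem_singleton_self _))
          have g1 : G'.Adj x.1 c := hadj _ _ (hf3 _ hxf _ hc hcx.symm) (fun h => hce (by
            rw [← h]; exact mem_insert_of_mem (mem_singleton_self _)))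
          have g2 : G'.Adj c y.1 := hadj _ _ (hf3 _ hc _ hyf hcy) (fun h => hce (by
            rw [← h]; exact mem_insert_self _ _))
          let c' : ((S : Set (Fin n)) : Type) := ⟨c, hf2 hc⟩
          have k1 : (G'.induce (S : Set (Fin n))).Adj x c' := g1
          have k2 : (G'.induce (S : Set (Fin n))).Adj c' y := g2
          exact k1.reachable.trans k2.reachable
        · have k1 : (G'.induce (S : Set (Fin n))).Adj x y := hadj _ _ hxy' hp
          exact k1.reachable
      have h3 : ((edges G').filter fun e => e ⊆ S).card + 1 ≤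
          ((edges G).filter fun e => e ⊆ S).card := by
        have h4 : insert {a, b} ((edges G').filter fun e => e ⊆ S) ⊆
            (edges G).filter fun e => e ⊆ S := by
          intro g hg
          rcases mem_insert.1 hg with rfl | hg
          · exact mem_filter.2 ⟨he, hfA.2.trans hf2⟩
          · rw [mem_filter, mem_edges] at hg ⊢
            exact ⟨⟨hg.1.1, fun x hx y hy hxy => (hadj' _ _ (hg.1.2 x hx y hy hxy)).1⟩, hg.2⟩
        have h5 : ({a, b} : Finset (Fin n)) ∉ (edges G').filter fun e => e ⊆ S := by
          intro h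
          rw [mem_filter, mem_edges] at h
          exact (hadj' _ _ (h.1.2 a (mem_insert_self _ _) b
            (mem_insert_of_mem (mem_singleton_self _)) hab)).2 rfl
        have h6 := card_le_card h4
        rwa [card_insert_of_notMem h5] at h6
      omega
    · intro g hg
      obtain ⟨hgf, hgA⟩ := mem_erase.1 hg
      obtain ⟨q1, q2, q3⟩ := hA g hgA
      refine ⟨q1, q2, fun x hx y hy hxy => hadj _ _ (q3 x hx y hy hxy) (fun h => hgf ?_)⟩
      refine huniq g hgA ?_
      rw [← h]
      intro z hz
      rw [mem_insert, mem_singleton] at hz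
      rcases hz with rfl | rfl
      · exact hx
      · exact hy
    · intro B hBA hBn
      obtain ⟨e', he', hcard⟩ := hB B (hBA.trans (erase_subset _ _)) hBn
      refine ⟨e', ?_, hcard⟩
      obtain ⟨g, hg⟩ := card_eq_one.1 hcard
      have hgB : g ∈ B ∧ e' ⊆ g := by
        have : g ∈ B.filter fun f => e' ⊆ f := by rw [hg]; exact mem_singleton_self _
        exact mem_filter.1 this
      obtain ⟨hgf, hgA⟩ := mem_erase.1 (hBA hgB.1)
      have hne' : e' ≠ {a, b} := fun h => hgf (huniq g hgA (by rw [← h]; exact hgB.2))
      rw [mem_edges] at he' ⊢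
      refine ⟨he'.1, fun x hx y hy hxy => hadj _ _ (he'.2 x hx y hy hxy) (fun h => hne' ?_)⟩
      rw [← h]
      symm
      apply eq_of_subset_of_card_le
      · intro z hz
        rw [mem_insert, mem_singleton] at hz
        rcases hz with rfl | rfl
        · exact hx
        · exact hy
      · rw [he'.1, card_pair hxy]

end Pool.Agent.K4H75.OS
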