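import Mathlib

set_option autoImplicit false

namespace Pool.Agent.K4H88

open Finset Equiv

/-- The number of permutations with `k` prescribed values is `(n - k)!`. -/
theorem card_prescribed {n k : ℕ} (f g : Fin k ↪ Fin n) :
    (univ.filter (fun σ : Perm (Fin n) => ∀ t, σ (f t) = g t)).card = (n - k).factorial := by
  obtain ⟨τ, hτ⟩ := Perm.exists_extending_pair f g f.injective g.injective
  have h1 : (univ.filter (fun σ : Perm (Fin n) => ∀ t, σ (f t) = g t)).card =
      Fintype.card {σ : Perm (Fin n) // ∀ a, ¬ (a ∉ Set.range f) → σ a = a} := by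
    rw [Fintype.card_subtype]
    refine Finset.card_bij' (fun σ _ => τ⁻¹ * σ) (fun σ _ => τ * σ) ?_ ?_ ?_ ?_
    · intro σ hσ
      simp only [mem_filter, mem_univ, true_and] at hσ ⊢
      intro a ha
      rw [not_not] at ha
      obtain ⟨t, rfl⟩ := ha
      rw [Perm.mul_apply, hσ, ← hτ]
      simp
    · intro σ hσ
      simp only [mem_filter, mem_univ, true_and] at hσ ⊢
      intro t
      rw [Perm.mul_apply, hσ (f t) (by simp), hτ]
    · intro σ _; simp
    · intro σ _; simp
  rw [h1, ← Fintype.card_congr (Perm.subtypeEquivSubtypePerm (fun a => a ∉ Set.range f)),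
    Fintype.card_perm]
  congr 1
  rw [Fintype.card_subtype_compl, Fintype.card_fin]
  congr 1
  rw [Fintype.card_congr (Equiv.ofInjective f f.injective).symm, Fintype.card_fin]

/-- one prescribed value -/
theorem card_one {n : ℕ} (i j : Fin n) :
    (univ.filter (fun σ : Perm (Fin n) => σ i = j)).card = (n - 1).factorial := by
  rw [← card_prescribed (k := 1) ⟨fun _ => i, fun a b _ => Subsingleton.elim a b⟩
    ⟨fun _ => j, fun a b _ => Subsingleton.elim a b⟩]
  congr 1
  ext σ
  simp

/-- two prescribed values -/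
theorem card_two {n : ℕ} {i j k l : Fin n} (h : i ≠ k) (h' : j ≠ l) :
    (univ.filter (fun σ : Perm (Fin n) => σ i = j ∧ σ k = l)).card = (n - 2).factorial := by
  rw [← card_prescribed (k := 2) ⟨![i, k], by
      intro a b; fin_cases a <;> fin_cases b <;> simp [h, h.symm]⟩
    ⟨![j, l], by intro a b; fin_cases a <;> fin_cases b <;> simp [h', h'.symm]⟩]
  congr 1
  ext σ
  simp [Fin.forall_fin_two]

/-- three prescribed values -/
theorem card_three {n : ℕ} {i j k l a b : Fin n} (h : i ≠ k) (h' : j ≠ l) (h1 : i ≠ a)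
    (h2 : k ≠ a) (h3 : j ≠ b) (h4 : l ≠ b) :
    (univ.filter (fun σ : Perm (Fin n) => σ i = j ∧ σ k = l ∧ σ a = b)).card =
      (n - 3).factorial := by
  rw [← card_prescribed (k := 3) ⟨![i, k, a], by
      intro x y; fin_cases x <;> fin_cases y <;> simp [h, h.symm, h1, h1.symm, h2, h2.symm]⟩
    ⟨![j, l, b], by
      intro x y; fin_cases x <;> fin_cases y <;> simp [h', h'.symm, h3, h3.symm, h4, h4.symm]⟩]
  congr 1
  ext σ
  simp [Fin.forall_fin_succ]

end Pool.Agent.K4H88
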