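import Mathlib
import Pool.Agent.K4H88.PermCount

set_option autoImplicit false

namespace Pool.Agent.K4H88.CosetIso

open Finset Equiv Pool.Agent.K4H88

variable {n : ℕ}

/-- The number of permutations fixing `a` and hitting a set `P` of pairs avoiding the row and the
column of `a`. -/
theorem hit_lower (hn : 3 ≤ n) (a : Fin n) (P : Finset (Fin n × Fin n))
    (hP : ∀ p ∈ P, p.1 ≠ a ∧ p.2 ≠ a) (hc : P.card ≤ n - 1) :
    P.card * (n - 2).factorial ≤
      2 * (univ.filter (fun σ : Perm (Fin n) => σ a = a ∧ ∃ p ∈ P, σ p.1 = p.2)).card := by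
  classical
  set T : Finset (Perm (Fin n)) := univ.filter (fun σ => σ a = a) with hT
  set X : Perm (Fin n) → ℕ := fun σ => (P.filter (fun p => σ p.1 = p.2)).card with hX
  have hXsum : ∀ σ : Perm (Fin n), X σ = ∑ p ∈ P, (if σ p.1 = p.2 then 1 else 0) := by
    intro σ; rw [hX]; simp only [card_filter]
  have h1 : ∑ σ ∈ T, X σ = P.card * (n - 2).factorial := by
    simp only [hXsum]
    rw [sum_comm]
    rw [sum_congr rfl (g := fun _ => (n - 2).factorial)]
    · simp
    · intro p hp
      rw [← card_filter, hT, filter_filter]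
      rw [← card_two (i := a) (j := a) (k := p.1) (l := p.2) (hP p hp).1.symm (hP p hp).2.symm]
  have h2 : ∑ σ ∈ T, X σ ^ 2 ≤ P.card * (n - 2).factorial +
      P.card * (P.card - 1) * (n - 3).factorial := by
    have e : ∀ σ, X σ ^ 2 = ∑ p ∈ P, ∑ q ∈ P, (if σ p.1 = p.2 ∧ σ q.1 = q.2 then 1 else 0) := by
      intro σ
      rw [hXsum, sq, sum_mul_sum]
      refine sum_congr rfl fun p _ => sum_congr rfl fun q _ => ?_
      by_cases h : σ p.1 = p.2 <;> by_cases h' : σ q.1 = q.2 <;> simp [h, h']
    simp only [e]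
    rw [sum_comm]
    have key : ∀ p ∈ P, ∑ σ ∈ T, ∑ q ∈ P, (if σ p.1 = p.2 ∧ σ q.1 = q.2 then 1 else 0) ≤
        (n - 2).factorial + (P.card - 1) * (n - 3).factorial := by
      intro p hp
      rw [sum_comm, ← add_sum_erase P _ hp]
      refine Nat.add_le_add ?_ ?_
      · rw [← card_filter, hT, filter_filter]
        rw [← card_two (i := a) (j := a) (k := p.1) (l := p.2) (hP p hp).1.symm (hP p hp).2.symm]
        refine card_le_card fun σ hσ => ?_
        simp only [mem_filter, mem_univ, true_and] at hσ ⊢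
        exact ⟨hσ.1, hσ.2.1⟩
      · rw [← card_erase_of_mem hp, ← smul_eq_mul]
        refine sum_le_card_nsmul _ _ _ fun q hq => ?_
        rw [mem_erase] at hq
        rw [← card_filter, hT, filter_filter]
        by_cases h3 : p.1 = q.1
        · have h4 : p.2 ≠ q.2 := fun h => hq.1 (Prod.ext h3.symm h.symm)
          rw [filter_false_of_mem]
          · simp
          · intro σ _ hσ
            apply h4
            rw [← hσ.2.1, ← hσ.2.2, h3]
        by_cases h4 : p.2 = q.2
        · rw [filter_false_of_mem]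
          · simp
          · intro σ _ hσ
            apply h3
            apply σ.injective
            rw [hσ.2.1, hσ.2.2, h4]
        rw [card_three (hP p hp).1.symm (hP p hp).2.symm (hP q hq.2).1.symm h3
          (hP q hq.2).2.symm h4]
    calc _ ≤ ∑ p ∈ P, ((n - 2).factorial + (P.card - 1) * (n - 3).factorial) := sum_le_sum key
      _ = _ := by rw [sum_const, smul_eq_mul]; ring
  have h3 : ∑ σ ∈ T, 3 * X σ ≤ ∑ σ ∈ T, X σ ^ 2 +
      2 * (univ.filter (fun σ : Perm (Fin n) => σ a = a ∧ ∃ p ∈ P, σ p.1 = p.2)).card := by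
    rw [← filter_filter, ← hT, card_filter, mul_sum, ← sum_add_distrib]
    refine sum_le_sum fun σ _ => ?_
    by_cases h : ∃ p ∈ P, σ p.1 = p.2
    · rw [if_pos h]
      nlinarith [sq_nonneg ((X σ : ℤ) - 1), sq_nonneg ((X σ : ℤ) - 2), show (3 : ℤ) * X σ ≤ X σ ^ 2 + 2 by
        rcases Nat.lt_or_ge (X σ) 2 with h' | h'
        · interval_cases (X σ) <;> norm_num
        · have : (2 : ℤ) ≤ X σ := by exact_mod_cast h'
          nlinarith]
    · rw [if_neg h]
      have : X σ = 0 := by
        rw [hX]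
        simp only [card_eq_zero]
        rw [filter_eq_empty_iff]
        intro p hp h'
        exact h ⟨p, hp, h'⟩
      rw [this]; simp
  rw [← mul_sum, h1] at h3
  have h4 : (P.card - 1) * (n - 3).factorial ≤ (n - 2).factorial := by
    obtain ⟨m, rfl⟩ : ∃ m, n = m + 3 := ⟨n - 3, by omega⟩
    have : m + 3 - 2 = m + 1 := by omega
    rw [this, Nat.factorial_succ]
    refine Nat.mul_le_mul (by omega) ?_
    simp
  have h5 : P.card * (P.card - 1) * (n - 3).factorial ≤ P.card * (n - 2).factorial := by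
    rw [mul_assoc]; exact Nat.mul_le_mul_left _ h4
  omega

/-- The complement of the counterexample. -/
def K (z o : Fin n) : Finset (Perm (Fin n)) :=
  univ.filter (fun σ => σ z = z ∨ σ o = o ∨ (σ z = o ∧ σ o = z))

theorem card_K {z o : Fin n} (h : z ≠ o) : (K z o).card = 2 * (n - 1).factorial := by
  classical
  have h1 : K z o = (univ.filter (fun σ : Perm (Fin n) => σ z = z) ∪
      univ.filter (fun σ : Perm (Fin n) => σ o = o)) ∪
      univ.filter (fun σ : Perm (Fin n) => σ z = o ∧ σ o = z) := by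
    ext σ; simp [K]
  have hd : Disjoint (univ.filter (fun σ : Perm (Fin n) => σ z = z) ∪
      univ.filter (fun σ : Perm (Fin n) => σ o = o))
      (univ.filter (fun σ : Perm (Fin n) => σ z = o ∧ σ o = z)) := by
    rw [Finset.disjoint_left]
    intro σ h1 h2
    simp only [mem_union, mem_filter, mem_univ, true_and] at h1 h2
    rcases h1 with h1 | h1
    · exact h (h1.symm.trans h2.1)
    · exact h (h2.2.symm.trans h1)
  rw [h1, card_union_of_disjoint hd, card_two h h.symm]
  have h2 := card_union_add_card_inter (univ.filter (fun σ : Perm (Fin n) => σ z = z))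
    (univ.filter (fun σ : Perm (Fin n) => σ o = o))
  rw [← filter_and, card_two h h, card_one, card_one] at h2
  omega


/-- The boundary count. -/
theorem boundary_le {m : ℕ} :
    ((((K (0 : Fin (m + 2)) 1)ᶜ ×ˢ (univ.filter (fun p : Fin (m + 2) × Fin (m + 2) => p.1 < p.2))).filter
      (fun x => x.1 * swap x.2.1 x.2.2 ∉ (K (0 : Fin (m + 2)) 1)ᶜ)).card) ≤
      2 * ((K (0 : Fin (m + 2)) 1)ᶜ).card + 2 * (m + 1).factorial := by
  classical
  set A := (K (0 : Fin (m + 2)) 1)ᶜ with hA
  set Q := (univ.filter (fun p : Fin (m + 2) × Fin (m + 2) => p.1 < p.2)) with hQ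
  have h01 : (0 : Fin (m + 2)) ≠ 1 := by
    intro h; simpa using congrArg Fin.val h
  have key : ∀ σ ∈ A, (Q.filter (fun p => σ * swap p.1 p.2 ∉ A)).card ≤
      2 + ((if σ 1 = 0 then 1 else 0) + (if σ 0 = 1 then 1 else 0)) := by
    intro σ hσ
    simp only [hA, K, mem_compl, mem_filter, mem_univ, true_and, not_or, not_and] at hσ
    obtain ⟨hz, ho, hzo⟩ := hσ
    have hsub : Q.filter (fun p => σ * swap p.1 p.2 ∉ A) ⊆
        (({(0, σ.symm 0)} : Finset (Fin (m + 2) × Fin (m + 2))) ∪
          {if σ.symm 1 = 0 then (0, 1) else (1, σ.symm 1)}) ∪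
          ((if σ 1 = 0 then {(0, σ.symm 1)} else ∅) ∪ (if σ 0 = 1 then {(1, σ.symm 0)} else ∅)) := by
      rintro ⟨i, j⟩ hp
      simp only [hQ, hA, K, mem_compl, mem_filter, mem_univ, true_and, not_not, Perm.mul_apply] at hp
      obtain ⟨hij, hp⟩ := hp
      have hu : ∀ x y : Fin (m + 2), σ x = y ↔ x = σ.symm y := by
        intro x y; exact ⟨fun h => by rw [← h]; simp, fun h => by rw [h]; simp⟩
      have hmin : ∀ x : Fin (m + 2), x < 1 → x = 0 := by
        intro x hx
        rw [Fin.lt_def] at hx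
        ext
        simp at hx ⊢
        omega
      have hne : i ≠ j := hij.ne
      have hj0 : j ≠ 0 := by
        intro h; subst h; exact absurd hij (Fin.not_lt_zero _)
      -- description of moves
      have hs0 : ∀ x, swap i j 0 = x → x ≠ 0 → i = 0 ∧ j = x := by
        intro x hx hx0
        by_cases hi : i = 0
        · subst hi
          rw [swap_apply_left] at hx
          exact ⟨rfl, hx⟩
        · rw [swap_apply_of_ne_of_ne (Ne.symm hi) (Ne.symm hj0)] at hx
          exact absurd hx.symm hx0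
      have hs1 : ∀ x, swap i j 1 = x → x ≠ 1 → (i = 1 ∧ j = x) ∨ (j = 1 ∧ i = x ∧ x = 0) := by
        intro x hx hx0
        by_cases hi : i = 1
        · subst hi
          rw [swap_apply_left] at hx
          exact Or.inl ⟨rfl, hx⟩
        by_cases hj : j = 1
        · subst hj
          rw [swap_apply_right] at hx
          exact Or.inr ⟨rfl, hx, by rw [← hx]; exact hmin _ hij⟩
        · rw [swap_apply_of_ne_of_ne (Ne.symm hi) (Ne.symm hj)] at hx
          exact absurd hx.symm hx0
      have hu0 : σ.symm 0 ≠ 0 := fun h => hz ((hu 0 0).2 h.symm)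
      have hu1 : σ.symm 1 ≠ 1 := fun h => ho ((hu 1 1).2 h.symm)
      simp only [mem_union, mem_singleton]
      rcases hp with hp | hp | ⟨hp, hp'⟩
      · rw [hu] at hp
        obtain ⟨rfl, rfl⟩ := hs0 _ hp hu0
        simp
      · rw [hu] at hp
        left; right
        rcases hs1 _ hp hu1 with ⟨rfl, rfl⟩ | ⟨rfl, rfl, h0⟩
        · rw [if_neg]
          intro h
          exact hj0 h
        · rw [if_pos h0, h0]
      · rw [hu] at hp hp'
        by_cases hw : σ.symm 1 = 0
        · -- σ 0 = 1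
          have h1 : σ 0 = 1 := (hu 0 1).2 hw.symm
          have h2 : σ.symm 0 ≠ 1 := fun h => hzo h1 ((hu 1 0).2 h.symm)
          rcases hs1 _ hp' h2 with ⟨rfl, rfl⟩ | ⟨rfl, rfl, h0⟩
          · right; right
            rw [if_pos h1]; simp
          · exact absurd h0 hu0
        · obtain ⟨rfl, rfl⟩ := hs0 _ hp hw
          rw [swap_apply_of_ne_of_ne h01.symm (Ne.symm hu1)] at hp'
          right; left
          rw [if_pos ((hu 1 0).2 hp')]
          simp
    refine (card_le_card hsub).trans ?_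
    refine (card_union_le _ _).trans ?_
    refine Nat.add_le_add ?_ ?_
    · refine (card_union_le _ _).trans ?_
      simp
    · refine (card_union_le _ _).trans ?_
      refine Nat.add_le_add ?_ ?_
      · split_ifs <;> simp
      · split_ifs <;> simp
  have h1 : ((A ×ˢ Q).filter (fun x => x.1 * swap x.2.1 x.2.2 ∉ A)).card =
      ∑ σ ∈ A, (Q.filter (fun p => σ * swap p.1 p.2 ∉ A)).card := by
    rw [card_filter, sum_product]
    refine sum_congr rfl fun σ _ => ?_
    rw [card_filter]
  rw [h1]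
  refine (sum_le_sum key).trans ?_
  rw [sum_add_distrib, sum_add_distrib, sum_const, smul_eq_mul, mul_comm A.card 2]
  refine Nat.add_le_add_left ?_ _
  rw [two_mul]
  refine Nat.add_le_add ?_ ?_
  · rw [← card_filter, ← show (m + 2 - 1).factorial = (m + 1).factorial by rfl,
      ← card_one (1 : Fin (m + 2)) 0]
    exact card_le_card (filter_subset_filter _ (subset_univ _))
  · rw [← card_filter, ← show (m + 2 - 1).factorial = (m + 1).factorial by rfl,
      ← card_one (0 : Fin (m + 2)) 1]
    exact card_le_card (filter_subset_filter _ (subset_univ _))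


/-- Every union of `n - 2` cosets is far from the complement of `K`. -/
theorem far {m : ℕ} (hm : 1 ≤ m) (P : Finset (Fin (m + 2) × Fin (m + 2))) (hP : P.card = m) :
    (m - 2) * m.factorial ≤ 4 * (symmDiff (K (0 : Fin (m + 2)) 1)ᶜ
      (univ.filter (fun σ : Perm (Fin (m + 2)) => ∃ p ∈ P, σ p.1 = p.2))).card := by
  classical
  have h01 : (0 : Fin (m + 2)) ≠ 1 := by
    intro h; simpa using congrArg Fin.val h
  set P0 := P.filter (fun p => p.1 ≠ 0 ∧ p.2 ≠ 0) with hP0
  set P1 := P.filter (fun p => p.1 ≠ 1 ∧ p.2 ≠ 1) with hP1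
  have hcard : P.card ≤ P0.card + P1.card + 2 := by
    have hsub : P ⊆ (P0 ∪ P1) ∪ {(0, 1), (1, 0)} := by
      rintro ⟨i, j⟩ hp
      simp only [hP0, hP1, mem_union, mem_filter, mem_insert, mem_singleton, Prod.mk.injEq]
      by_cases h1 : i = 0
      · subst h1
        by_cases h2 : j = 1
        · subst h2; right; left; exact ⟨rfl, rfl⟩
        · left; right; exact ⟨hp, h01, h2⟩
      · by_cases h3 : j = 0
        · subst h3
          by_cases h4 : i = 1
          · subst h4; right; right; exact ⟨rfl, rfl⟩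
          · left; right; exact ⟨hp, h4, h01⟩
        · left; left; exact ⟨hp, h1, h3⟩
    refine (card_le_card hsub).trans ((card_union_le _ _).trans ?_)
    refine Nat.add_le_add (card_union_le _ _) ?_
    exact card_le_two
  have low : ∀ a : Fin (m + 2), (a = 0 ∨ a = 1) →
      (P.filter (fun p => p.1 ≠ a ∧ p.2 ≠ a)).card * m.factorial ≤
      2 * (symmDiff (K (0 : Fin (m + 2)) 1)ᶜ
      (univ.filter (fun σ : Perm (Fin (m + 2)) => ∃ p ∈ P, σ p.1 = p.2))).card := by
    intro a ha
    refine (hit_lower (by omega) a _ (fun p hp => (mem_filter.1 hp).2) ?_).trans ?_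
    · refine (card_filter_le _ _).trans ?_
      omega
    · refine Nat.mul_le_mul_left _ (card_le_card fun σ hσ => ?_)
      simp only [mem_filter, mem_univ, true_and] at hσ
      obtain ⟨h1, p, hp, h2⟩ := hσ
      rw [mem_symmDiff]
      right
      refine ⟨?_, ?_⟩
      · rw [mem_filter]; exact ⟨mem_univ _, p, hp.1, h2⟩
      · simp only [K, mem_compl, mem_filter, mem_univ, true_and, not_not]
        rcases ha with rfl | rfl
        · exact Or.inl h1
        · exact Or.inr (Or.inl h1)
  have l0 := low 0 (Or.inl rfl)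
  have l1 := low 1 (Or.inr rfl)
  rw [← hP0] at l0
  rw [← hP1] at l1
  have h2 : (m - 2) * m.factorial ≤ (P0.card + P1.card) * m.factorial :=
    Nat.mul_le_mul_right _ (by omega)
  rw [add_mul] at h2
  omega

theorem main (C₁ : ℝ) (hC : 0 < C₁)
    (h : ∀ (n : ℕ), 1 ≤ n →
      ∀ (c : ℕ) (δ : ℝ), 0 ≤ δ →
      ∀ A : Finset (Equiv.Perm (Fin n)),
        A.card = c * Nat.factorial (n - 1) →
        ((((A ×ˢ (Finset.univ.filter (fun p : Fin n × Fin n => p.1 < p.2))).filter
            (fun x => x.1 * Equiv.swap x.2.1 x.2.2 ∉ A)).card : ℕ) : ℝ)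
          ≤ (A.card : ℝ) * ((Nat.factorial n : ℝ) - (A.card : ℝ)) / (Nat.factorial (n - 1) : ℝ)
            + δ * (n : ℝ) * (A.card : ℝ) →
        ∃ P : Finset (Fin n × Fin n), P.card = c ∧
          ((symmDiff A (Finset.univ.filter (fun σ : Equiv.Perm (Fin n) => ∃ p ∈ P, σ p.1 = p.2))).card : ℝ)
            ≤ C₁ * (c : ℝ) * δ * (Nat.factorial (n - 1) : ℝ)) : False := by
  obtain ⟨m, hm⟩ : ∃ m : ℕ, 8 * C₁ + 3 < m := exists_nat_gt _
  have hm3 : 3 < m := by
    have : (3 : ℝ) < m := by linarith
    exact_mod_cast this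
  have h01 : (0 : Fin (m + 2)) ≠ 1 := by
    intro h; simpa using congrArg Fin.val h
  have hm0 : (0 : ℝ) < m := by linarith
  have hm20 : (0 : ℝ) < (m : ℝ) + 2 := by linarith
  have hK := card_K h01
  have hA : ((K (0 : Fin (m + 2)) 1)ᶜ).card = m * (m + 1).factorial := by
    rw [card_compl, hK, Fintype.card_perm, Fintype.card_fin]
    have : (m + 2).factorial = (m + 2) * (m + 1).factorial := Nat.factorial_succ _
    rw [this]
    show (m + 2) * (m + 1).factorial - 2 * (m + 1).factorial = _
    rw [← Nat.sub_mul]; rfl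
  have hf : (0 : ℝ) < ((m + 1).factorial : ℝ) := by exact_mod_cast Nat.factorial_pos _
  have hb := boundary_le (m := m)
  obtain ⟨P, hP, hP2⟩ := h (m + 2) (by omega) m (2 / (m * (m + 2))) (by positivity)
    (K (0 : Fin (m + 2)) 1)ᶜ hA (by
      have hb' : (((((K (0 : Fin (m + 2)) 1)ᶜ ×ˢ (univ.filter
          (fun p : Fin (m + 2) × Fin (m + 2) => p.1 < p.2))).filter
          (fun x => x.1 * swap x.2.1 x.2.2 ∉ (K (0 : Fin (m + 2)) 1)ᶜ)).card : ℕ) : ℝ) ≤
          2 * ((K (0 : Fin (m + 2)) 1)ᶜ).card + 2 * (m + 1).factorial := by exact_mod_cast hb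
      refine hb'.trans (le_of_eq ?_)
      rw [hA]
      have : (m + 2).factorial = (m + 2) * (m + 1).factorial := Nat.factorial_succ _
      rw [this]
      push_cast
      field_simp
      ring)
  have hfar := far (by omega) P hP
  have hfar' : ((m : ℝ) - 2) * m.factorial ≤ 4 * (symmDiff (K (0 : Fin (m + 2)) 1)ᶜ
      (univ.filter (fun σ : Perm (Fin (m + 2)) => ∃ p ∈ P, σ p.1 = p.2))).card := by
    have : (((m - 2 : ℕ) : ℝ)) * m.factorial ≤ 4 * (symmDiff (K (0 : Fin (m + 2)) 1)ᶜ
      (univ.filter (fun σ : Perm (Fin (m + 2)) => ∃ p ∈ P, σ p.1 = p.2))).card := by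
      exact_mod_cast hfar
    rwa [Nat.cast_sub (by omega)] at this
  have hmf : (0 : ℝ) < (m.factorial : ℝ) := by exact_mod_cast Nat.factorial_pos _
  have h1 : (m + 2 - 1).factorial = (m + 1) * m.factorial := Nat.factorial_succ _
  rw [h1] at hP2
  have h2 : C₁ * (m : ℝ) * (2 / (m * (m + 2))) * (((m + 1) * m.factorial : ℕ) : ℝ) ≤
      2 * C₁ * m.factorial := by
    push_cast
    have : C₁ * (m : ℝ) * (2 / (m * (m + 2))) * (((m : ℝ) + 1) * m.factorial) =
        2 * C₁ * m.factorial * (((m : ℝ) + 1) / (m + 2)) := by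
      field_simp
    rw [this]
    have h3 : ((m : ℝ) + 1) / (m + 2) ≤ 1 := by
      rw [div_le_one hm20]; linarith
    have h4 : 0 ≤ 2 * C₁ * (m.factorial : ℝ) := by positivity
    nlinarith
  have h5 : ((m : ℝ) - 2) * m.factorial ≤ 8 * C₁ * m.factorial := by
    nlinarith
  have h6 : (m : ℝ) - 2 ≤ 8 * C₁ := le_of_mul_le_mul_right h5 hmf
  linarith

end Pool.Agent.K4H88.CosetIso
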