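import Mathlib
import Pool.Agent.K4H25.FH.Spec

/-!
Fractional Gaussian noise: positivity and monotonicity of the decrements (piece PHI1).
-/

set_option autoImplicit false

namespace Pool.Agent.K4H25.FH

open Finset

theorem gam_neg (H : ℝ) (j : ℤ) : gam H (-j) = gam H j := by
  unfold gam
  push_cast
  have e1 : |(-(j : ℝ)) + 1| = |(j : ℝ) - 1| := by
    rw [← abs_neg]; congr 1; ring
  have e2 : |(-(j : ℝ)) - 1| = |(j : ℝ) + 1| := by
    rw [← abs_neg]; congr 1; ring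
  rw [e1, e2, abs_neg]
  ring

theorem dlt_neg (H : ℝ) (j : ℤ) : dlt H (-j) = dlt H j := by
  unfold dlt
  have e1 : gam H (-j + 1) = gam H (j - 1) := by
    rw [← gam_neg]; congr 1; ring
  have e2 : gam H (-j - 1) = gam H (j + 1) := by
    rw [← gam_neg]; congr 1; ring
  rw [e1, e2, gam_neg]
  ring

theorem dlt_succ (H : ℝ) (n : ℕ) : dlt H ((n : ℤ) + 1) = phi H (n + 1) - phi H n := by
  unfold dlt phi
  push_cast
  have e : (n : ℤ) + 1 - 1 = n := by ring
  rw [e]
  ring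

theorem row {H : ℝ} (i n : ℕ) :
    ∑ m ∈ range (i + n + 1), dlt H ((i : ℤ) - (m : ℤ)) = phi H i + phi H n := by
  have h1 : ∀ m ∈ range (i + n + 1), dlt H ((i : ℤ) - (m : ℤ)) =
      (fun m : ℕ => gam H ((i : ℤ) - m) - gam H ((i : ℤ) - m + 1)) m -
      (fun m : ℕ => gam H ((i : ℤ) - m) - gam H ((i : ℤ) - m + 1)) (m + 1) := by
    intro m _
    simp only [dlt]
    push_cast
    have e1 : (i : ℤ) - ((m : ℤ) + 1) = (i : ℤ) - m - 1 := by ring
    have e2 : (i : ℤ) - ((m : ℤ) + 1) + 1 = (i : ℤ) - m := by ring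
    rw [e1] at *
    have e3 : (i : ℤ) - m - 1 + 1 = (i : ℤ) - m := by ring
    rw [e3]
    ring
  rw [sum_congr rfl h1, Finset.sum_range_sub']
  simp only [phi]
  push_cast
  have e1 : (i : ℤ) - 0 = i := by ring
  have e2 : (i : ℤ) - ((i : ℤ) + n + 1) = -((n : ℤ) + 1) := by ring
  have e3 : -((n : ℤ) + 1) + 1 = -(n : ℤ) := by ring
  rw [e1, e2, e3, gam_neg, gam_neg]
  ring

/-- `gam` at a natural number plus one -/
theorem gam_succ (H : ℝ) (n : ℕ) : gam H ((n : ℤ) + 1) =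
    (((n : ℝ) + 2) ^ (2 * H) - 2 * ((n : ℝ) + 1) ^ (2 * H) + (n : ℝ) ^ (2 * H)) / 2 := by
  unfold gam
  push_cast
  have hn : (0 : ℝ) ≤ n := Nat.cast_nonneg n
  have e1 : |(n : ℝ) + 1 + 1| = (n : ℝ) + 2 := by
    rw [abs_of_nonneg (by linarith)]; ring
  have e2 : |(n : ℝ) + 1| = (n : ℝ) + 1 := abs_of_nonneg (by linarith)
  have e3 : |(n : ℝ) + 1 - 1| = (n : ℝ) := by
    rw [abs_of_nonneg (by linarith)]; ring
  rw [e1, e2, e3]

theorem gam_zero {H : ℝ} (h : 1 / 2 < H) : gam H 0 = 1 := by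
  unfold gam
  have : (0 : ℝ) ^ (2 * H) = 0 := Real.zero_rpow (by linarith)
  simp [this]

theorem gam_nonneg {H : ℝ} (h : 1 / 2 < H) (_h1 : H < 1) (j : ℤ) : 0 ≤ gam H j := by
  have hs : ∀ n : ℕ, 0 ≤ gam H n := by
    intro n
    rcases n with _ | n
    · have : gam H ((0 : ℕ) : ℤ) = gam H 0 := by norm_num
      rw [this, gam_zero h]; norm_num
    · push_cast
      rw [gam_succ]
      have hm1 : (n : ℝ) ∈ Set.Ici (0 : ℝ) := Set.mem_Ici.2 (Nat.cast_nonneg n)
      have hm2 : (n : ℝ) + 2 ∈ Set.Ici (0 : ℝ) := Set.mem_Ici.2 (by positivity)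
      have hc := (convexOn_rpow (p := 2 * H) (by linarith)).2 hm1 hm2
        (show (0 : ℝ) ≤ 1 / 2 by norm_num) (show (0 : ℝ) ≤ 1 / 2 by norm_num) (by norm_num)
      simp only [smul_eq_mul] at hc
      have e : (1 / 2 : ℝ) * (n : ℝ) + 1 / 2 * ((n : ℝ) + 2) = (n : ℝ) + 1 := by ring
      rw [e] at hc
      linarith
  rcases le_total 0 j with hj | hj
  · lift j to ℕ using hj
    exact hs j
  · obtain ⟨n, hn⟩ := Int.eq_ofNat_of_zero_le (show 0 ≤ -j by omega)
    rw [← gam_neg, hn]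
    exact hs n

theorem phi_zero {H : ℝ} (h : 1 / 2 < H) : phi H 0 = 2 - 2 ^ (2 * H) / 2 := by
  unfold phi
  have e := gam_succ H 0
  have e2 : gam H (((0 : ℕ) : ℤ)) = 1 := by
    have : gam H ((0 : ℕ) : ℤ) = gam H 0 := by norm_num
    rw [this, gam_zero h]
  rw [e2, e]
  have z : (0 : ℝ) ^ (2 * H) = 0 := Real.zero_rpow (by linarith)
  simp only [Nat.cast_zero, zero_add, z, Real.one_rpow]
  ring

theorem phi_succ (H : ℝ) (n : ℕ) : phi H (n + 1) =
    (3 * ((n : ℝ) + 2) ^ (2 * H) - 3 * ((n : ℝ) + 1) ^ (2 * H) + (n : ℝ) ^ (2 * H)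
      - ((n : ℝ) + 3) ^ (2 * H)) / 2 := by
  unfold phi
  have e1 := gam_succ H n
  have e2 := gam_succ H (n + 1)
  push_cast at e1 e2 ⊢
  rw [e1, e2]
  have a1 : (n : ℝ) + 1 + 2 = n + 3 := by ring
  have a2 : (n : ℝ) + 1 + 1 = n + 2 := by ring
  rw [a1, a2]
  ring

/-- first differences of `x ^ s` are strictly concave -/
theorem sconc {s : ℝ} (h : 1 < s) (h2 : s < 2) :
    StrictConcaveOn ℝ (Set.Ici (0 : ℝ)) (fun x => (x + 1) ^ s - x ^ s) := by
  have hd : ∀ x : ℝ, 0 < x → HasDerivAt (fun x : ℝ => (x + 1) ^ s - x ^ s)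
      (s * (x + 1) ^ (s - 1) - s * x ^ (s - 1)) x := by
    intro x hx
    have a := (Real.hasDerivAt_rpow_const (x := x + 1) (p := s) (Or.inr h.le)).comp x
      ((hasDerivAt_id x).add_const 1)
    have b := Real.hasDerivAt_rpow_const (x := x) (p := s) (Or.inr h.le)
    have c := a.sub b
    refine c.congr_deriv ?_
    ring
  apply strictConcaveOn_of_deriv2_neg (convex_Ici 0)
  · apply ContinuousOn.sub
    · exact ContinuousOn.rpow_const (by fun_prop) (fun x _ => Or.inr (by linarith))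
    · exact ContinuousOn.rpow_const (by fun_prop) (fun x _ => Or.inr (by linarith))
  · intro x hx
    rw [interior_Ici, Set.mem_Ioi] at hx
    have h1 : deriv (fun x : ℝ => (x + 1) ^ s - x ^ s) =ᶠ[nhds x]
        fun x => s * (x + 1) ^ (s - 1) - s * x ^ (s - 1) := by
      filter_upwards [Ioi_mem_nhds hx] with y hy
      exact (hd y hy).deriv
    have h3 : HasDerivAt (fun x : ℝ => s * (x + 1) ^ (s - 1) - s * x ^ (s - 1))
        (s * ((s - 1) * (x + 1) ^ (s - 1 - 1)) - s * ((s - 1) * x ^ (s - 1 - 1))) x := by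
      have a := (Real.hasDerivAt_rpow_const (x := x + 1) (p := s - 1)
        (Or.inl (by positivity))).comp x ((hasDerivAt_id x).add_const 1)
      have b := Real.hasDerivAt_rpow_const (x := x) (p := s - 1) (Or.inl hx.ne')
      have c := (a.const_mul s).sub (b.const_mul s)
      refine c.congr_deriv ?_
      ring
    show deriv (deriv _) x < 0
    rw [h1.deriv_eq, h3.deriv]
    have h4 : (x + 1) ^ (s - 1 - 1) < x ^ (s - 1 - 1) :=
      Real.rpow_lt_rpow_of_neg hx (by linarith) (by linarith)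
    have h5 : 0 < s * (s - 1) := mul_pos (by linarith) (by linarith)
    nlinarith [mul_lt_mul_of_pos_left h4 h5]

theorem phi_pos {H : ℝ} (h : 1 / 2 < H) (h1 : H < 1) (n : ℕ) : 0 < phi H n := by
  rcases n with _ | n
  · rw [phi_zero h]
    have : (2 : ℝ) ^ (2 * H) < 2 ^ (2 : ℝ) :=
      Real.rpow_lt_rpow_of_exponent_lt (by norm_num) (by linarith)
    have e : (2 : ℝ) ^ (2 : ℝ) = 4 := by norm_num
    linarith
  · rw [phi_succ]
    have hm1 : (n : ℝ) ∈ Set.Ici (0 : ℝ) := Set.mem_Ici.2 (Nat.cast_nonneg n)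
    have hm2 : (n : ℝ) + 2 ∈ Set.Ici (0 : ℝ) := Set.mem_Ici.2 (by positivity)
    have hc := (sconc (s := 2 * H) (by linarith) (by linarith)).2 hm1 hm2 (by linarith)
      (show (0 : ℝ) < 1 / 2 by norm_num) (show (0 : ℝ) < 1 / 2 by norm_num) (by norm_num)
    simp only [smul_eq_mul] at hc
    have e : (1 / 2 : ℝ) * (n : ℝ) + 1 / 2 * ((n : ℝ) + 2) = (n : ℝ) + 1 := by ring
    have e2 : (n : ℝ) + 1 + 1 = n + 2 := by ring
    have e3 : (n : ℝ) + 2 + 1 = n + 3 := by ring
    rw [e, e2, e3] at hc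
    linarith

theorem dlt_one_neg {H : ℝ} (h : 1 / 2 < H) (h1 : H < 1) : dlt H 1 < 0 := by
  have e := dlt_succ H 0
  have e' := phi_succ H 0
  simp only [Nat.cast_zero, zero_add] at e e'
  rw [e, phi_zero h, e']
  have z : (0 : ℝ) ^ (2 * H) = 0 := Real.zero_rpow (by linarith)
  rw [z, Real.one_rpow]
  -- `3 ^ s - 4 * 2 ^ s + 7 > 0`
  set u : ℝ := 2 * H - 2 with hu
  have hu0 : u < 0 := by linarith
  have e2 : (2 : ℝ) ^ (2 * H) = 4 * 2 ^ u := by
    have : 2 * H = 2 + u := by rw [hu]; ring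
    rw [this, Real.rpow_add (by norm_num)]
    norm_num
  have e3 : (3 : ℝ) ^ (2 * H) = 9 * 3 ^ u := by
    have : 2 * H = 2 + u := by rw [hu]; ring
    rw [this, Real.rpow_add (by norm_num)]
    norm_num
  set x : ℝ := 2 ^ u with hx
  have hx0 : 0 < x := Real.rpow_pos_of_pos (by norm_num) _
  have hx1 : x < 1 := Real.rpow_lt_one_of_one_lt_of_neg (by norm_num) hu0
  have h3 : x ^ (5 / 3 : ℝ) ≤ 3 ^ u := by
    rw [hx, ← Real.rpow_mul (by norm_num), mul_comm, Real.rpow_mul (by norm_num)]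
    apply Real.rpow_le_rpow_of_nonpos (by norm_num) _ hu0.le
    have h9 : ((2 : ℝ) ^ (5 / 3 : ℝ)) ^ (3 : ℕ) = 32 := by
      rw [← Real.rpow_natCast, ← Real.rpow_mul (by norm_num)]
      norm_num
    by_contra hlt
    push Not at hlt
    have h10 : ((2 : ℝ) ^ (5 / 3 : ℝ)) ^ (3 : ℕ) < 3 ^ 3 :=
      pow_lt_pow_left₀ hlt (by positivity) (by norm_num)
    rw [h9] at h10
    norm_num at h10
  have h4 := one_add_mul_self_le_rpow_one_add (s := x - 1) (by linarith) (p := 5 / 3) (by norm_num)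
  have e4 : 1 + (x - 1) = x := by ring
  rw [e4] at h4
  rw [e2, e3]
  linarith

/-- second differences of `x ^ s` are convex -/
theorem convG {s : ℝ} (h : 1 < s) (h2 : s < 2) :
    ConvexOn ℝ (Set.Ici (0 : ℝ)) (fun x => (x + 2) ^ s - 2 * (x + 1) ^ s + x ^ s) := by
  apply convexOn_of_hasDerivWithinAt2_nonneg (convex_Ici 0)
    (f' := fun x => s * (x + 2) ^ (s - 1) - 2 * (s * (x + 1) ^ (s - 1)) + s * x ^ (s - 1))
    (f'' := fun x => s * ((s - 1) * (x + 2) ^ (s - 1 - 1))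
      - 2 * (s * ((s - 1) * (x + 1) ^ (s - 1 - 1))) + s * ((s - 1) * x ^ (s - 1 - 1)))
  · apply ContinuousOn.add
    · apply ContinuousOn.sub
      · exact ContinuousOn.rpow_const (by fun_prop) (fun x _ => Or.inr (by linarith))
      · apply ContinuousOn.mul continuousOn_const
        exact ContinuousOn.rpow_const (by fun_prop) (fun x _ => Or.inr (by linarith))
    · exact ContinuousOn.rpow_const (by fun_prop) (fun x _ => Or.inr (by linarith))
  · intro x hx
    apply HasDerivAt.hasDerivWithinAt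
    have a := (Real.hasDerivAt_rpow_const (x := x + 2) (p := s) (Or.inr h.le)).comp x
      ((hasDerivAt_id x).add_const 2)
    have a' := (Real.hasDerivAt_rpow_const (x := x + 1) (p := s) (Or.inr h.le)).comp x
      ((hasDerivAt_id x).add_const 1)
    have b := Real.hasDerivAt_rpow_const (x := x) (p := s) (Or.inr h.le)
    have c := (a.sub (a'.const_mul 2)).add b
    refine c.congr_deriv ?_
    ring
  · intro x hx
    rw [interior_Ici, Set.mem_Ioi] at hx
    apply HasDerivAt.hasDerivWithinAt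
    have a := (Real.hasDerivAt_rpow_const (x := x + 2) (p := s - 1)
        (Or.inl (by positivity))).comp x ((hasDerivAt_id x).add_const 2)
    have a' := (Real.hasDerivAt_rpow_const (x := x + 1) (p := s - 1)
        (Or.inl (by positivity))).comp x ((hasDerivAt_id x).add_const 1)
    have b := Real.hasDerivAt_rpow_const (x := x) (p := s - 1) (Or.inl hx.ne')
    have c := ((a.const_mul s).sub ((a'.const_mul s).const_mul 2)).add (b.const_mul s)
    refine c.congr_deriv ?_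
    ring
  · intro x hx
    rw [interior_Ici, Set.mem_Ioi] at hx
    have hp : s - 1 - 1 < 0 := by linarith
    set p : ℝ := s - 1 - 1 with hpdef
    -- `(x+2)^p + x^p ≥ 2 (x+1)^p`
    have k1 : 0 < (x + 2) ^ (p / 2) := Real.rpow_pos_of_pos (by linarith) _
    have k2 : 0 < x ^ (p / 2) := Real.rpow_pos_of_pos hx _
    have k3 : (x + 2) ^ p = ((x + 2) ^ (p / 2)) ^ 2 := by
      rw [← Real.rpow_natCast, ← Real.rpow_mul (by linarith)]
      norm_num
    have k4 : x ^ p = (x ^ (p / 2)) ^ 2 := by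
      rw [← Real.rpow_natCast, ← Real.rpow_mul hx.le]
      norm_num
    have k5 : (x + 1) ^ p = (((x + 1) ^ 2 : ℝ)) ^ (p / 2) := by
      rw [← Real.rpow_natCast (x + 1) 2, ← Real.rpow_mul (by linarith)]
      congr 1
      push_cast
      ring
    have k6 : (((x + 1) ^ 2 : ℝ)) ^ (p / 2) ≤ ((x + 2) * x) ^ (p / 2) := by
      apply Real.rpow_le_rpow_of_nonpos (by positivity) (by nlinarith) (by linarith)
    rw [Real.mul_rpow (by linarith) hx.le] at k6
    have k7 : 2 * (x + 1) ^ p ≤ (x + 2) ^ p + x ^ p := by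
      rw [k5, k3, k4]
      nlinarith [sq_nonneg ((x + 2) ^ (p / 2) - x ^ (p / 2))]
    have h5 : 0 < s * (s - 1) := mul_pos (by linarith) (by linarith)
    nlinarith [mul_le_mul_of_nonneg_left k7 h5.le]

theorem phi_anti_succ {H : ℝ} (h : 1 / 2 < H) (h1 : H < 1) (n : ℕ) :
    phi H (n + 1) ≤ phi H n := by
  rcases n with _ | n
  · have := dlt_one_neg h h1
    have e := dlt_succ H 0
    simp only [Nat.cast_zero, zero_add] at e
    rw [e] at this
    simp only [zero_add]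
    linarith
  · rw [phi_succ, phi_succ]
    have hm1 : (n : ℝ) ∈ Set.Ici (0 : ℝ) := Set.mem_Ici.2 (Nat.cast_nonneg n)
    have hm2 : (n : ℝ) + 2 ∈ Set.Ici (0 : ℝ) := Set.mem_Ici.2 (by positivity)
    have hc := (convG (s := 2 * H) (by linarith) (by linarith)).2 hm1 hm2
      (show (0 : ℝ) ≤ 1 / 2 by norm_num) (show (0 : ℝ) ≤ 1 / 2 by norm_num) (by norm_num)
    simp only [smul_eq_mul] at hc
    push_cast
    have e : (1 / 2 : ℝ) * (n : ℝ) + 1 / 2 * ((n : ℝ) + 2) = (n : ℝ) + 1 := by ring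
    rw [e] at hc
    have e2 : (n : ℝ) + 1 + 1 = n + 2 := by ring
    have e3 : (n : ℝ) + 2 + 1 = n + 3 := by ring
    have e4 : (n : ℝ) + 2 + 2 = n + 4 := by ring
    have e5 : (n : ℝ) + 1 + 2 = n + 3 := by ring
    have e6 : (n : ℝ) + 1 + 3 = n + 4 := by ring
    rw [e2, e3, e4, e5] at hc
    rw [e2, e5, e6]
    linarith

theorem dlt_nonpos {H : ℝ} (h : 1 / 2 < H) (h1 : H < 1) {j : ℤ} (hj : j ≠ 0) :
    dlt H j ≤ 0 := by
  have key : ∀ n : ℕ, dlt H ((n : ℤ) + 1) ≤ 0 := by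
    intro n
    rw [dlt_succ]
    linarith [phi_anti_succ h h1 n]
  rcases lt_or_gt_of_ne hj with hj | hj
  · obtain ⟨n, hn⟩ := Int.eq_ofNat_of_zero_le (show 0 ≤ -j - 1 by omega)
    have e : -j = (n : ℤ) + 1 := by omega
    rw [← dlt_neg, e]
    exact key n
  · obtain ⟨n, hn⟩ := Int.eq_ofNat_of_zero_le (show 0 ≤ j - 1 by omega)
    have e : j = (n : ℤ) + 1 := by omega
    rw [e]
    exact key n

end Pool.Agent.K4H25.FH
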