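import Pool.Agent.K4H59.TL.Spec

/-! Piece M3: the new tiling is a tiling. -/

set_option autoImplicit false

open Set

namespace Pool.Agent.K4H59.TL

open Pool.Agent.K4H72.Til (IsPolygon ShareEdge IsTiling Tile Derivable Adj HasLocEig)

private theorem m3_interior (t : ℂ) (K : Set ℂ) : interior (sh t K) = sh t (interior K) :=
  ((Homeomorph.addLeft t).image_interior K).symm

private theorem m3_closure (t : ℂ) (K : Set ℂ) : closure (sh t K) = sh t (closure K) :=
  ((Homeomorph.addLeft t).image_closure K).symm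

private theorem m3_mem {t : ℂ} {K : Set ℂ} {z : ℂ} : z ∈ sh t K ↔ z - t ∈ K := by
  constructor
  · rintro ⟨x, hx, rfl⟩
    simpa using hx
  · intro h
    exact ⟨z - t, h, by simp⟩

private theorem m3_polygon {K : Set ℂ} (t : ℂ) (hK : IsPolygon K) : IsPolygon (sh t K) := by
  classical
  obtain ⟨h1, h2, h3, s, h4, h5⟩ := hK
  refine ⟨h1.image _, h2.image (Homeomorph.addLeft t).continuous, ?_,
    s.image (fun p => (p.1, p.2 + p.1 t)), ?_, ?_⟩
  · rw [m3_interior, m3_closure]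
    exact image_mono h3
  · intro p hp
    obtain ⟨q, hq, rfl⟩ := Finset.mem_image.mp hp
    exact h4 q hq
  · ext z
    rw [m3_mem]
    constructor
    · intro hz p hp
      obtain ⟨q, hq, rfl⟩ := Finset.mem_image.mp hp
      rw [h5] at hz
      have := hz q hq
      rw [map_sub] at this
      show q.1 z ≤ q.2 + q.1 t
      linarith
    · intro hz
      rw [h5]
      intro q hq
      have := hz (q.1, q.2 + q.1 t) (Finset.mem_image.mpr ⟨q, hq, rfl⟩)
      have h6 : q.1 z ≤ q.2 + q.1 t := this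
      rw [map_sub]
      linarith

private theorem m3_neg {t : ℂ} {K L : Set ℂ} (h : K = sh t L) : L = sh (-t) K := by
  ext z
  rw [m3_mem, h, m3_mem]
  simp

/-- PIECE M3, with the definition of `newT T rep t D₀` unfolded (so `newT_tiling := newT_tiling_raw hT h1 hD`) -/
theorem newT_tiling_raw {C : Type} {T : Set (Tile C)} (hT : IsTiling T) {rep : Set ℂ → Set ℂ}
    {t : Set ℂ → ℂ} (h1 : ∀ K, K = sh (t K) (rep K)) {D₀ : Set ℂ → Set (Set ℂ)}
    {ρ₀ : Set ℂ → Set ℂ → ℕ} (hD : ∀ K, IsPolygon K → GoodDec K (D₀ K) (ρ₀ K)) :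
    IsTiling {q : Tile (C × Set ℂ × Set ℂ) | ∃ s ∈ T, ∃ Q₀ ∈ D₀ (rep s.1),
      q = (sh (t s.1) Q₀, (s.2, rep s.1, Q₀))} := by
  have hpol : ∀ s ∈ T, IsPolygon (rep s.1) := by
    intro s hs
    rw [m3_neg (h1 s.1)]
    exact m3_polygon _ (hT.polygon s hs)
  have hG : ∀ s ∈ T, GoodDec (rep s.1) (D₀ (rep s.1)) (ρ₀ (rep s.1)) := fun s hs =>
    hD _ (hpol s hs)
  have hsub : ∀ s ∈ T, ∀ Q ∈ D₀ (rep s.1), sh (t s.1) Q ⊆ s.1 := by
    intro s hs Q hQ
    have : sh (t s.1) Q ⊆ sh (t s.1) (rep s.1) := image_mono ((hG s hs).sub Q hQ)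
    rwa [← h1 s.1] at this
  refine ⟨?_, ?_, ?_, ?_⟩
  · have e : {q : Tile (C × Set ℂ × Set ℂ) | ∃ s ∈ T, ∃ Q₀ ∈ D₀ (rep s.1),
        q = (sh (t s.1) Q₀, (s.2, rep s.1, Q₀))} = ⋃ s ∈ T, (fun Q₀ => ((sh (t s.1) Q₀, (s.2, rep s.1, Q₀)) :
        Tile (C × Set ℂ × Set ℂ))) '' D₀ (rep s.1) := by
      ext q
      simp only [mem_ofPred_eq, mem_iUnion, mem_image, exists_prop]
      constructor
      · rintro ⟨s, hs, Q, hQ, rfl⟩
        exact ⟨s, hs, Q, hQ, rfl⟩
      · rintro ⟨s, hs, Q, hQ, rfl⟩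
        exact ⟨s, hs, Q, hQ, rfl⟩
    rw [e]
    exact hT.countable.biUnion fun s hs => (hG s hs).countable.image _
  · rintro q ⟨s, hs, Q, hQ, rfl⟩
    exact m3_polygon _ ((hG s hs).poly Q hQ)
  · intro z
    obtain ⟨s, hs, hz⟩ := hT.cover z
    have hz' := hz
    rw [h1 s.1, m3_mem] at hz'
    obtain ⟨Q, hQ, hzQ⟩ := (hG s hs).cover _ hz'
    exact ⟨_, ⟨s, hs, Q, hQ, rfl⟩, m3_mem.mpr hzQ⟩
  · rintro q ⟨s, hs, Q, hQ, rfl⟩ q' ⟨s', hs', Q', hQ', rfl⟩ hne
    by_cases hss : s = s'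
    · subst hss
      have hQQ : Q ≠ Q' := by
        rintro rfl
        exact hne rfl
      have hd := (hG s hs).disj Q hQ Q' hQ' hQQ
      show Disjoint (interior (sh (t s.1) Q)) (interior (sh (t s.1) Q'))
      rw [m3_interior, m3_interior]
      exact (disjoint_image_iff (add_right_injective (t s.1))).mpr hd
    · exact (hT.disj s hs s' hs' hss).mono (interior_mono (hsub s hs Q hQ))
        (interior_mono (hsub s' hs' Q' hQ'))

end Pool.Agent.K4H59.TL
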