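import Pool.Agent.K4H58.XK.Spec

set_option autoImplicit false

open Finset

namespace Pool.Agent.K4H58.XK

namespace LB

/-- a block of `k` consecutive numbers, a row of a grid -/
def blk (k b : ℕ) : Finset ℕ := (range k).image (fun s => b * k + s)

/-- a column of the grid `t` -/
def col (k t s : ℕ) : Finset ℕ := (range k).image (fun r => (t * k + r) * k + s)

lemma dm {k b s : ℕ} (hk : 0 < k) (hs : s < k) : (b * k + s) / k = b ∧ (b * k + s) % k = s := by
  constructor
  · rw [Nat.add_comm, Nat.add_mul_div_right _ _ hk, Nat.div_eq_of_lt hs, zero_add]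
  · rw [Nat.add_comm, Nat.add_mul_mod_self_right, Nat.mod_eq_of_lt hs]

lemma mem_blk {k b x : ℕ} (hk : 0 < k) : x ∈ blk k b ↔ x / k = b := by
  unfold blk
  rw [mem_image]
  constructor
  · rintro ⟨s, hs, rfl⟩
    exact (dm hk (mem_range.1 hs)).1
  · rintro rfl
    exact ⟨x % k, mem_range.2 (Nat.mod_lt _ hk), by rw [Nat.mul_comm]; exact Nat.div_add_mod x k⟩

lemma mem_col {k t s x : ℕ} (hk : 0 < k) (hs : s < k) :
    x ∈ col k t s ↔ x / k / k = t ∧ x % k = s := by
  unfold col
  rw [mem_image]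
  constructor
  · rintro ⟨r, hr, rfl⟩
    have h1 := dm (b := t * k + r) hk hs
    rw [h1.1, h1.2]
    exact ⟨(dm hk (mem_range.1 hr)).1, rfl⟩
  · rintro ⟨rfl, rfl⟩
    refine ⟨x / k % k, mem_range.2 (Nat.mod_lt _ hk), ?_⟩
    have h1 : x / k / k * k + x / k % k = x / k := by
      rw [Nat.mul_comm]; exact Nat.div_add_mod _ _
    have h2 : x / k * k + x % k = x := by
      rw [Nat.mul_comm]; exact Nat.div_add_mod _ _
    show (x / k / k * k + x / k % k) * k + x % k = x
    rw [h1, h2]

lemma card_blk {k b : ℕ} : (blk k b).card = k := by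
  unfold blk
  rw [card_image_of_injective _ (fun a c h => Nat.add_left_cancel h), card_range]

lemma card_col {k t s : ℕ} (hk : 0 < k) : (col k t s).card = k := by
  unfold col
  rw [card_image_of_injective, card_range]
  intro a c h
  have h1 : (t * k + a) * k = (t * k + c) * k := Nat.add_right_cancel h
  exact Nat.add_left_cancel (Nat.eq_of_mul_eq_mul_right hk h1)

lemma disj_blk {k b b' : ℕ} (hk : 0 < k) (h : b ≠ b') : Disjoint (blk k b) (blk k b') := by
  rw [disjoint_left]
  intro x hx hx'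
  rw [mem_blk hk] at hx hx'
  exact h (hx.symm.trans hx')

lemma disj_col {k t s t' s' : ℕ} (hk : 0 < k) (hs : s < k) (hs' : s' < k)
    (h : (t, s) ≠ (t', s')) : Disjoint (col k t s) (col k t' s') := by
  rw [disjoint_left]
  intro x hx hx'
  rw [mem_col hk hs] at hx
  rw [mem_col hk hs'] at hx'
  exact h (Prod.ext (hx.1.symm.trans hx'.1) (hx.2.symm.trans hx'.2))

lemma disj_blk_col {k b t s : ℕ} (hk : 0 < k) (hs : s < k) :
    Disjoint (blk k b) (col k t s) ↔ b / k ≠ t := by
  rw [disjoint_left]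
  constructor
  · rintro h rfl
    have h1 := dm (b := b) hk hs
    refine h ((mem_blk (b := b) (x := b * k + s) hk).2 h1.1) ((mem_col hk hs).2 ⟨?_, h1.2⟩)
    rw [h1.1]
  · intro h x hx hx'
    rw [mem_blk hk] at hx
    rw [mem_col hk hs] at hx'
    rw [hx] at hx'
    exact h hx'.1

/-- the same set in `Fin n` -/
def toFin (n : ℕ) (S : Finset ℕ) : Finset (Fin n) := univ.filter (fun x => x.val ∈ S)

lemma map_toFin {n : ℕ} {S : Finset ℕ} (h : ∀ x ∈ S, x < n) :
    (toFin n S).map Fin.valEmbedding = S := by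
  ext x
  rw [mem_map]
  constructor
  · rintro ⟨y, hy, rfl⟩
    exact (mem_filter.1 hy).2
  · intro hx
    exact ⟨⟨x, h x hx⟩, mem_filter.2 ⟨mem_univ _, hx⟩, rfl⟩

lemma card_toFin {n : ℕ} {S : Finset ℕ} (h : ∀ x ∈ S, x < n) : (toFin n S).card = S.card := by
  conv_rhs => rw [← map_toFin h]
  rw [card_map]

lemma disj_toFin {n : ℕ} {S S' : Finset ℕ} (h : ∀ x ∈ S, x < n) (h' : ∀ x ∈ S', x < n) :
    Disjoint (toFin n S) (toFin n S') ↔ Disjoint S S' := by
  conv_rhs => rw [← map_toFin h, ← map_toFin h']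
  rw [disjoint_map]

lemma inj_toFin {n : ℕ} {S S' : Finset ℕ} (h : ∀ x ∈ S, x < n) (h' : ∀ x ∈ S', x < n)
    (he : toFin n S = toFin n S') : S = S' := by
  rw [← map_toFin h, ← map_toFin h', he]

/-- the `k`-subsets of `{0, ..., 2k-1}` which contain `0` -/
def B (k : ℕ) : Finset (Finset ℕ) := (powersetCard (k - 1) (Ico 1 (2 * k))).image (insert 0)

lemma mem_B {k : ℕ} (hk : 1 ≤ k) {T : Finset ℕ} (hT : T ∈ B k) :
    (∀ x ∈ T, x < 2 * k) ∧ T.card = k ∧ 0 ∈ T := by
  unfold B at hT
  rw [mem_image] at hT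
  obtain ⟨U, hU, rfl⟩ := hT
  rw [mem_powersetCard] at hU
  have h0 : 0 ∉ U := fun h => by
    have := mem_Ico.1 (hU.1 h)
    omega
  refine ⟨?_, ?_, mem_insert_self _ _⟩
  · intro x hx
    rcases mem_insert.1 hx with rfl | hx
    · omega
    · exact (mem_Ico.1 (hU.1 hx)).2
  · rw [card_insert_of_notMem h0, hU.2]
    omega

lemma range_mem_B {k : ℕ} (hk : 1 ≤ k) : range k ∈ B k := by
  unfold B
  rw [mem_image]
  refine ⟨Ico 1 k, ?_, ?_⟩
  · rw [mem_powersetCard]
    refine ⟨fun x hx => ?_, by rw [Nat.card_Ico]⟩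
    rw [mem_Ico] at hx ⊢
    omega
  · ext x
    rw [mem_insert, mem_Ico, mem_range]
    omega

lemma card_B {k : ℕ} : (B k).card = (2 * k - 1).choose (k - 1) := by
  unfold B
  rw [card_image_of_injOn, card_powersetCard, Nat.card_Ico]
  intro U hU V hV h
  have h0 : ∀ U ∈ powersetCard (k - 1) (Ico 1 (2 * k)), 0 ∉ U := fun U hU h => by
    have := mem_Ico.1 ((mem_powersetCard.1 hU).1 h)
    omega
  have hU0 := h0 U hU
  have hV0 := h0 V hV
  have h1 : (insert 0 U).erase 0 = (insert 0 V).erase 0 := by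
    have h2 : insert 0 U = insert 0 V := h
    rw [h2]
  rwa [erase_insert hU0, erase_insert hV0] at h1

lemma exists_enum {k : ℕ} (hk : 1 ≤ k) : ∃ T : ℕ → Finset ℕ, (∀ t, T t ∈ B k) ∧
    ∀ t < (B k).card - 1, ∀ t', T t = T t' → t = t' := by
  classical
  set B' := (B k).erase (range k) with hB'
  have hc : B'.card = (B k).card - 1 := card_erase_of_mem (range_mem_B hk)
  let e := B'.equivFinOfCardEq hc
  let T : ℕ → Finset ℕ := fun t => if h : t < (B k).card - 1 then (e.symm ⟨t, h⟩ : Finset ℕ) else range k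
  refine ⟨T, fun t => ?_, fun t ht t' h => ?_⟩
  · by_cases h : t < (B k).card - 1
    · have h1 : T t = (e.symm ⟨t, h⟩ : Finset ℕ) := dif_pos h
      rw [h1]
      exact mem_of_mem_erase (e.symm ⟨t, h⟩).2
    · have h1 : T t = range k := dif_neg h
      rw [h1]
      exact range_mem_B hk
  · have h1 : T t = (e.symm ⟨t, ht⟩ : Finset ℕ) := dif_pos ht
    by_cases h' : t' < (B k).card - 1
    · have h2 : T t' = (e.symm ⟨t', h'⟩ : Finset ℕ) := dif_pos h'
      rw [h1, h2] at h
      have h3 := e.symm.injective (Subtype.ext h)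
      exact congrArg Fin.val h3
    · have h2 : T t' = range k := dif_neg h'
      rw [h1, h2] at h
      exact absurd h (ne_of_mem_erase (e.symm ⟨t, ht⟩).2)

end LB

open LB

theorem lower_bound {k : ℕ} (hk : 1 ≤ k) : ∃ n0 : ℕ, ∀ n : ℕ, n0 ≤ n →
    ∃ F : Finset (Finset (Fin n) × Finset (Fin n)), (∀ p ∈ F, p.1.card = k ∧ p.2.card = k) ∧
      (∀ p ∈ F, ∀ q ∈ F, p ≠ q → (Disjoint p.1 q.1 ↔ ¬ Disjoint p.2 q.2)) ∧
      F.card = n / k + (k * (2 * k).choose k / 2 - k) := by
  classical
  obtain ⟨T, hT, hinj⟩ := exists_enum hk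
  set m := (B k).card - 1 with hm
  refine ⟨m * k * k + 2 * k, fun n hn => ?_⟩
  let φ : ℕ → Finset ℕ × Finset ℕ := fun b => (blk k b, T (b / k))
  let ψ : ℕ × ℕ → Finset ℕ × Finset ℕ := fun p => (col k p.1 p.2, range (2 * k) \ T p.1)
  have hTr : ∀ t, T t ⊆ range (2 * k) := fun t x hx => mem_range.2 ((mem_B hk (hT t)).1 x hx)
  have hTc : ∀ t, (T t).card = k := fun t => (mem_B hk (hT t)).2.1
  have hT0 : ∀ t, 0 ∈ T t := fun t => (mem_B hk (hT t)).2.2
  have hCc : ∀ t, (range (2 * k) \ T t).card = k := fun t => by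
    rw [card_sdiff_of_subset (hTr t), card_range, hTc]
    omega
  let G1 := (range (n / k)).image φ
  let G2 := (range m ×ˢ range k).image ψ
  let G := G1 ∪ G2
  have hG : ∀ p ∈ G, (∃ b < n / k, p = φ b) ∨ ∃ t < m, ∃ s < k, p = ψ (t, s) := by
    intro p hp
    rcases mem_union.1 hp with h | h
    · obtain ⟨b, hb, rfl⟩ := mem_image.1 h
      exact Or.inl ⟨b, mem_range.1 hb, rfl⟩
    · obtain ⟨⟨t, s⟩, hb, rfl⟩ := mem_image.1 h
      have := mem_product.1 hb
      exact Or.inr ⟨t, mem_range.1 this.1, s, mem_range.1 this.2, rfl⟩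
  -- all the sets are in `range n`
  have hlt : ∀ p ∈ G, (∀ x ∈ p.1, x < n) ∧ ∀ x ∈ p.2, x < n := by
    intro p hp
    rcases hG p hp with ⟨b, hb, rfl⟩ | ⟨t, ht, s, hs, rfl⟩
    · refine ⟨fun x hx => ?_, fun x hx => ?_⟩
      · have h1 : x / k = b := (mem_blk hk).1 hx
        rw [← h1] at hb
        by_contra hc
        exact absurd (Nat.div_le_div_right (c := k) (not_lt.1 hc)) (not_le.2 hb)
      · have := mem_range.1 (hTr _ hx)
        omega
    · refine ⟨fun x hx => ?_, fun x hx => ?_⟩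
      · have h1 : x / k / k = t ∧ x % k = s := (mem_col hk hs).1 hx
        rw [← h1.1] at ht
        have h2 : x < m * k * k := by
          rw [Nat.div_lt_iff_lt_mul hk, Nat.div_lt_iff_lt_mul hk] at ht
          exact ht
        omega
      · have := mem_range.1 (mem_sdiff.1 hx).1
        omega
  have hcard : ∀ p ∈ G, p.1.card = k ∧ p.2.card = k := by
    intro p hp
    rcases hG p hp with ⟨b, hb, rfl⟩ | ⟨t, ht, s, hs, rfl⟩
    · exact ⟨card_blk, hTc _⟩
    · exact ⟨card_col hk, hCc _⟩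
  have hmix : ∀ b, ∀ t < m, ∀ s < k, (Disjoint (φ b).1 (ψ (t, s)).1 ↔
      ¬ Disjoint (φ b).2 (ψ (t, s)).2) := by
    intro b t ht s hs
    show Disjoint (blk k b) (col k t s) ↔ ¬ Disjoint (T (b / k)) (range (2 * k) \ T t)
    rw [disj_blk_col hk hs]
    apply not_congr
    constructor
    · intro h
      rw [h]
      exact disjoint_sdiff
    · intro h
      have h1 : T (b / k) ⊆ T t := by
        intro x hx
        by_contra hc
        exact disjoint_left.1 h hx (mem_sdiff.2 ⟨hTr _ hx, hc⟩)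
      have h2 : T (b / k) = T t := eq_of_subset_of_card_le h1 (by rw [hTc, hTc])
      exact (hinj t ht (b / k) h2.symm).symm
  have hxor : ∀ p ∈ G, ∀ q ∈ G, p ≠ q → (Disjoint p.1 q.1 ↔ ¬ Disjoint p.2 q.2) := by
    intro p hp q hq hne
    rcases hG p hp with ⟨b, hb, rfl⟩ | ⟨t, ht, s, hs, rfl⟩ <;>
      rcases hG q hq with ⟨b', hb', rfl⟩ | ⟨t', ht', s', hs', rfl⟩
    · have h1 : b ≠ b' := fun h => hne (by rw [h])
      refine ⟨fun _ h => ?_, fun _ => disj_blk hk h1⟩
      exact disjoint_left.1 h (hT0 _) (hT0 _)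
    · exact hmix b t' ht' s' hs'
    · have := hmix b' t ht s hs
      rw [disjoint_comm, this, disjoint_comm]
    · have h1 : (t, s) ≠ (t', s') := fun h => hne (by rw [h])
      refine ⟨fun _ h => ?_, fun _ => disj_col hk hs hs' h1⟩
      have h2 : Disjoint (range (2 * k) \ T t) (range (2 * k) \ T t') := h
      have h3 := card_union_of_disjoint h2
      rw [hCc, hCc] at h3
      have h4 : (range (2 * k) \ T t) ∪ (range (2 * k) \ T t') ⊆ (range (2 * k)).erase 0 := by
        intro x hx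
        rw [mem_erase]
        rcases mem_union.1 hx with h | h
        · exact ⟨fun h0 => (mem_sdiff.1 h).2 (by rw [h0]; exact hT0 _), (mem_sdiff.1 h).1⟩
        · exact ⟨fun h0 => (mem_sdiff.1 h).2 (by rw [h0]; exact hT0 _), (mem_sdiff.1 h).1⟩
      have h5 := card_le_card h4
      rw [card_erase_of_mem (mem_range.2 (by omega)), card_range, h3] at h5
      omega
  let τ : Finset ℕ × Finset ℕ → Finset (Fin n) × Finset (Fin n) := fun p => (toFin n p.1, toFin n p.2)
  have hτ : Set.InjOn τ G := by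
    intro p hp q hq h
    have h1 := hlt p hp
    have h2 := hlt q hq
    have h3 : toFin n p.1 = toFin n q.1 := congrArg Prod.fst h
    have h4 : toFin n p.2 = toFin n q.2 := congrArg Prod.snd h
    exact Prod.ext (inj_toFin h1.1 h2.1 h3) (inj_toFin h1.2 h2.2 h4)
  refine ⟨G.image τ, ?_, ?_, ?_⟩
  · intro p hp
    obtain ⟨p', hp', rfl⟩ := mem_image.1 hp
    have h1 := hlt p' hp'
    have h2 := hcard p' hp'
    exact ⟨(card_toFin h1.1).trans h2.1, (card_toFin h1.2).trans h2.2⟩
  · intro p hp q hq hne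
    obtain ⟨p', hp', rfl⟩ := mem_image.1 hp
    obtain ⟨q', hq', rfl⟩ := mem_image.1 hq
    have h1 := hlt p' hp'
    have h2 := hlt q' hq'
    have h3 : p' ≠ q' := fun h => hne (by rw [h])
    show Disjoint (toFin n p'.1) (toFin n q'.1) ↔ ¬ Disjoint (toFin n p'.2) (toFin n q'.2)
    rw [disj_toFin h1.1 h2.1, disj_toFin h1.2 h2.2]
    exact hxor p' hp' q' hq' h3
  · rw [card_image_of_injOn hτ]
    have hφ : Function.Injective φ := by
      intro b b' h
      by_contra hne
      have h1 : blk k b = blk k b' := congrArg Prod.fst h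
      have h2 := disj_blk (b := b) (b' := b') hk hne
      rw [← h1, disjoint_self_iff_empty] at h2
      have h3 := card_blk (k := k) (b := b)
      rw [h2, card_empty] at h3
      omega
    have hψ : Set.InjOn ψ (range m ×ˢ range k : Finset (ℕ × ℕ)) := by
      rintro ⟨t, s⟩ hp ⟨t', s'⟩ hq h
      have hp' := mem_product.1 (mem_coe.1 hp)
      have hq' := mem_product.1 (mem_coe.1 hq)
      by_contra hne
      have h1 : col k t s = col k t' s' := congrArg Prod.fst h
      have h2 := disj_col (t := t) (s := s) (t' := t') (s' := s') hk (mem_range.1 hp'.2)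
        (mem_range.1 hq'.2) hne
      rw [← h1, disjoint_self_iff_empty] at h2
      have h3 := card_col (k := k) (t := t) (s := s) hk
      rw [h2, card_empty] at h3
      omega
    have hdis : Disjoint G1 G2 := by
      rw [disjoint_left]
      intro p hp hq
      obtain ⟨b, _, rfl⟩ := mem_image.1 hp
      obtain ⟨⟨t, s⟩, _, h⟩ := mem_image.1 hq
      have h1 : range (2 * k) \ T t = T (b / k) := congrArg Prod.snd h
      have h2 := hT0 (b / k)
      rw [← h1] at h2
      exact (mem_sdiff.1 h2).2 (hT0 t)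
    rw [card_union_of_disjoint hdis, card_image_of_injective _ hφ, card_image_of_injOn hψ,
      card_range, card_product, card_range, card_range, hm, card_B]
    congr 1
    obtain ⟨j, rfl⟩ : ∃ j, k = j + 1 := ⟨k - 1, by omega⟩
    have e1 : 2 * (j + 1) - 1 = 2 * j + 1 := by omega
    have e2 : j + 1 - 1 = j := by omega
    have e3 : (2 * (j + 1)).choose (j + 1) = 2 * (2 * j + 1).choose j := by
      have h1 : 2 * (j + 1) = (2 * j + 1) + 1 := by ring
      rw [h1, Nat.choose_succ_succ]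
      have h2 : (2 * j + 1).choose (j + 1) = (2 * j + 1).choose j := by
        have := Nat.choose_symm_half j
        exact this
      rw [h2]
      ring
    rw [e1, e2, e3]
    have e4 : (j + 1) * (2 * (2 * j + 1).choose j) / 2 = (j + 1) * (2 * j + 1).choose j := by
      have : (j + 1) * (2 * (2 * j + 1).choose j) = 2 * ((j + 1) * (2 * j + 1).choose j) := by ring
      rw [this, Nat.mul_div_cancel_left _ (by norm_num)]
    rw [e4, Nat.sub_mul, one_mul, Nat.mul_comm]

end Pool.Agent.K4H58.XK
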